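import Pool.Agent.N116.EW.Stm

/-!
Project EW, task EW4: the dual version of the mixed four-arm bound (helper583).
-/

set_option autoImplicit false

namespace Pool.Agent.N583.EW

open Pool.Agent.N116.EW
open H974 H389NS H984N H984P H342P Finset
open H12S hiding fl
open Pool.Agent.W424.OD (AE Cl A3v)

/-! ### Locality of `XE` -/

theorem CB_congr {c : ℤ × ℤ} {m : ℕ} {F F' : Set Edg} (h : ∀ g ∈ blk c m, g ∈ F ↔ g ∈ F')
    (x : Vtx) : CB c m F x = CB c m F' x := by
  have : F ∩ ↑(blk c m) = F' ∩ ↑(blk c m) := by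
    ext g
    constructor
    · rintro ⟨h1, h2⟩
      exact ⟨(h g h2).1 h1, h2⟩
    · rintro ⟨h1, h2⟩
      exact ⟨(h g h2).2 h1, h2⟩
  unfold CB
  rw [this]

theorem XE_imp {e : Edg} {m : ℕ} {F F' G G' : Set Edg}
    (hF : ∀ g ∈ blk (src e) m, g ∈ F ↔ g ∈ F') (hG : ∀ g ∈ blk (src e) m, g ∈ G ↔ g ∈ G')
    (h : XE e m F G) : XE e m F' G' := by
  obtain ⟨x, v, h1, h2, h3, w, hw, h4⟩ := h
  have hF' : ∀ g ∈ blk (src e) m, g ∈ F \ {e} ↔ g ∈ F' \ {e} := by
    intro g hg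
    simp only [Set.mem_sdiff]
    rw [hF g hg]
  have hC : CB (src e) m (F \ {e}) x = CB (src e) m (F' \ {e}) x := CB_congr hF' x
  rw [hC] at h2 h3 h4
  refine ⟨x, v, h1, h2, h3, w, hw, ?_⟩
  have : {g | g ∈ G' \ {e} ∧ src g ∉ CB (src e) m (F' \ {e}) x ∧
      tgt g ∉ CB (src e) m (F' \ {e}) x} ∩ (↑(blk (src e) m) : Set Edg) =
      {g | g ∈ G \ {e} ∧ src g ∉ CB (src e) m (F' \ {e}) x ∧
      tgt g ∉ CB (src e) m (F' \ {e}) x} ∩ (↑(blk (src e) m) : Set Edg) := by
    ext g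
    constructor
    · rintro ⟨⟨⟨a1, a2⟩, a3⟩, a4⟩
      exact ⟨⟨⟨(hG g a4).2 a1, a2⟩, a3⟩, a4⟩
    · rintro ⟨⟨⟨a1, a2⟩, a3⟩, a4⟩
      exact ⟨⟨⟨(hG g a4).1 a1, a2⟩, a3⟩, a4⟩
  rw [this]
  exact h4

theorem XE_congr {e : Edg} {m : ℕ} {F F' G G' : Set Edg}
    (hF : ∀ g ∈ blk (src e) m, g ∈ F ↔ g ∈ F') (hG : ∀ g ∈ blk (src e) m, g ∈ G ↔ g ∈ G') :
    XE e m F G ↔ XE e m F' G' :=
  ⟨XE_imp hF hG, XE_imp (fun g hg => (hF g hg).symm) (fun g hg => (hG g hg).symm)⟩

/-! ### Marks -/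

theorem mem_ba {K : Finset (Edg × Bool)} {e : Edg} : e ∈ ba K ↔ (e, true) ∈ K := by
  unfold ba
  constructor
  · intro h
    rw [mem_image] at h
    obtain ⟨⟨a, b⟩, h1, h2⟩ := h
    rw [mem_filter] at h1
    obtain ⟨h3, h4⟩ := h1
    simp only at h2 h4
    subst h2 h4
    exact h3
  · intro h
    rw [mem_image]
    exact ⟨(e, true), by rw [mem_filter]; exact ⟨h, rfl⟩, rfl⟩

theorem mem_fl {K : Finset (Edg × Bool)} {e : Edg} : e ∈ fl K ↔ (e, false) ∈ K := by
  unfold N116.EW.fl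
  constructor
  · intro h
    rw [mem_image] at h
    obtain ⟨⟨a, b⟩, h1, h2⟩ := h
    rw [mem_filter] at h1
    obtain ⟨h3, h4⟩ := h1
    simp only at h2 h4
    subst h2 h4
    exact h3
  · intro h
    rw [mem_image]
    exact ⟨(e, false), by rw [mem_filter]; exact ⟨h, rfl⟩, rfl⟩

/-- Flip the marks `true`. -/
def fp (S : Finset Edg) (K : Finset (Edg × Bool)) : Finset (Edg × Bool) :=
  ((S ×ˢ {true}) \ K) ∪ K.filter (fun i => i.2 = false)

theorem ba_fp (S : Finset Edg) (K : Finset (Edg × Bool)) : ba (fp S K) = S \ ba K := by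
  ext e
  rw [mem_ba, mem_sdiff, mem_ba]
  unfold fp
  simp

theorem fl_fp (S : Finset Edg) (K : Finset (Edg × Bool)) : fl (fp S K) = fl K := by
  ext e
  rw [mem_fl, mem_fl]
  unfold fp
  simp

theorem Ex_congr_p {E : Type} [DecidableEq E] {p q : E → ℝ} {S : Finset E}
    (h : ∀ e ∈ S, p e = q e) (f : Finset E → ℝ) : Ex p S f = Ex q S f := by
  unfold Ex
  apply Finset.sum_congr rfl
  intro F hF
  have hF' := Finset.mem_powerset.1 hF
  congr 2
  · exact Finset.prod_congr rfl fun e he => h e (hF' he)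
  · exact Finset.prod_congr rfl fun e he => by rw [h e (Finset.mem_sdiff.1 he).1]

theorem CE_split (S : Finset Edg) : CE S = (S ×ˢ {true}) ∪ (S ×ˢ {false}) := by
  ext ⟨e, b⟩
  unfold CE
  cases b <;> simp

theorem Pr_fp (η : ℝ) (S : Finset Edg) (A : Finset (Edg × Bool) → Prop) :
    Pr (cw η) (CE S) A = Pr (cw η) (CE S) (fun K => A (fp S K)) := by
  have hd : Disjoint (S ×ˢ ({true} : Finset Bool)) (S ×ˢ ({false} : Finset Bool)) := by
    rw [Finset.disjoint_left]
    rintro ⟨e, b⟩ h1 h2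
    simp only [mem_product, mem_singleton] at h1 h2
    rw [h1.2] at h2
    simp at h2
  unfold Pr
  rw [CE_split, Ex_union hd, Ex_union hd]
  have h1 : ∀ g : Finset (Edg × Bool) → ℝ, Ex (cw η) (S ×ˢ ({true} : Finset Bool)) g =
      Ex (cw η) (S ×ˢ ({true} : Finset Bool)) (fun X => g ((S ×ˢ ({true} : Finset Bool)) \ X)) := by
    intro g
    rw [← Ex_compl]
    apply Ex_congr_p
    rintro ⟨e, b⟩ he
    simp only [mem_product, mem_singleton] at he
    unfold cw
    rw [he.2]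
    norm_num
  rw [h1]
  apply Ex_congr
  intro X hX
  apply Ex_congr
  intro Y hY
  apply ind_congr
  have : (S ×ˢ ({true} : Finset Bool)) \ X ∪ Y = fp S (X ∪ Y) := by
    ext ⟨e, b⟩
    unfold fp
    have hX' := @hX (e, b)
    have hY' := @hY (e, b)
    simp only [mem_product, mem_singleton] at hX' hY'
    simp only [mem_union, mem_sdiff, mem_product, mem_singleton, mem_filter, not_or]
    cases b
    · simp only [Bool.false_eq_true, and_false, false_and, false_or, and_true, imp_false] at *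
      tauto
    · simp only [Bool.true_eq_false, and_true, and_false, imp_false, or_false] at *
      tauto
  rw [this]

/-- The embedding of marks given by duality. -/
def dM : (Edg × Bool) ↪ (Edg × Bool) := (dl.prodCongr (Equiv.refl Bool)).toEmbedding

theorem dM_apply (e : Edg) (b : Bool) : dM (e, b) = (dl e, b) := rfl

theorem mem_map_dM {K : Finset (Edg × Bool)} {e : Edg} {b : Bool} :
    (e, b) ∈ K.map dM ↔ (dl.symm e, b) ∈ K := by
  rw [mem_map]
  constructor
  · rintro ⟨⟨a, c⟩, h1, h2⟩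
    rw [dM_apply, Prod.mk.injEq] at h2
    obtain ⟨h3, h4⟩ := h2
    rw [← h3, ← h4, Equiv.symm_apply_apply]
    exact h1
  · intro h
    exact ⟨_, h, by rw [dM_apply, Equiv.apply_symm_apply]⟩

theorem ba_map (K : Finset (Edg × Bool)) : ba (K.map dM) = dmp (ba K) := by
  ext e
  rw [mem_ba, mem_map_dM, mem_dmp, mem_ba]

theorem fl_map (K : Finset (Edg × Bool)) : fl (K.map dM) = dmp (fl K) := by
  ext e
  rw [mem_fl, mem_map_dM, mem_dmp, mem_fl]

theorem CE_map (S : Finset Edg) : (CE S).map dM = CE (dmp S) := by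
  ext ⟨e, b⟩
  rw [mem_map_dM]
  unfold CE
  simp only [mem_product, mem_univ, and_true]
  rw [mem_dmp]

theorem lo_dual (b : Bool) {S : Finset Edg} {K : Finset (Edg × Bool)} (hK : K ⊆ CE S) :
    lo (!b) ((fp S K).map dM) = dmp (S \ up b K) := by
  have hS : ∀ e, (e, false) ∈ K → e ∈ S := by
    intro e he
    have := hK he
    unfold CE at this
    simpa using this
  cases b
  · simp only [lo, up, Bool.not_false, if_true, Bool.false_eq_true, if_false, ba_map, ba_fp]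
  · simp only [lo, up, Bool.not_true, if_true, Bool.false_eq_true, if_false, ba_map, ba_fp,
      fl_map, fl_fp]
    ext e
    simp only [mem_sdiff, mem_dmp, mem_union, mem_ba, mem_fl]
    tauto

theorem up_dual (b : Bool) {S : Finset Edg} {K : Finset (Edg × Bool)} (hK : K ⊆ CE S) :
    up (!b) ((fp S K).map dM) = dmp (S \ lo b K) := by
  have hS : ∀ e, (e, false) ∈ K → e ∈ S := by
    intro e he
    have := hK he
    unfold CE at this
    simpa using this
  cases b
  · simp only [lo, up, Bool.not_false, if_true, Bool.false_eq_true, if_false, ba_map, ba_fp,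
      fl_map, fl_fp]
    ext e
    have := hS (dl.symm e)
    simp only [mem_sdiff, mem_dmp, mem_union, mem_ba, mem_fl]
    tauto
  · simp only [lo, up, Bool.not_true, if_true, Bool.false_eq_true, if_false, ba_map, ba_fp]

theorem PC_dual (b : Bool) (η : ℝ) (S : Finset Edg) (A : Finset Edg → Finset Edg → Prop) :
    PC (!b) η (dmp S) A =
      Pr (cw η) (CE S) (fun K => A (dmp (S \ up b K)) (dmp (S \ lo b K))) := by
  unfold PC
  rw [← CE_map, Pr_map]
  have h1 : (fun i => cw η (dM i)) = cw η := by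
    funext ⟨e, c⟩
    rfl
  rw [h1, Pr_fp]
  apply Pr_congr
  intro K hK
  rw [lo_dual b hK, up_dual b hK]

theorem xd (h : ∀ b, S_XE b) : ∀ b, S_XD b := by
  intro b
  obtain ⟨M, t, hM, ht, H⟩ := h (!b)
  refine ⟨M, t, hM, ht, fun n η hn hη hη1 hηt e m hm hmn S hS => ?_⟩
  refine le_trans (le_of_eq ?_) (H n η hn hη hη1 hηt (dl e) m hm hmn (dmp S) hS)
  rw [PC_dual]
  unfold PC
  apply Pr_congr
  intro K _
  unfold XD
  apply XE_congr
  · intro g hg
    have hg' : dl.symm g ∈ S := mem_dmp.1 (hS hg)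
    rw [coe_dmp]
    constructor
    · rintro ⟨a, ha, rfl⟩
      rw [Equiv.symm_apply_apply] at hg'
      exact ⟨a, mem_coe.2 (mem_sdiff.2 ⟨hg', fun h0 => ha (mem_coe.2 h0)⟩), rfl⟩
    · rintro ⟨a, ha, rfl⟩
      exact ⟨a, fun h0 => (mem_sdiff.1 (mem_coe.1 ha)).2 (mem_coe.1 h0), rfl⟩
  · intro g hg
    have hg' : dl.symm g ∈ S := mem_dmp.1 (hS hg)
    rw [coe_dmp]
    constructor
    · rintro ⟨a, ha, rfl⟩
      rw [Equiv.symm_apply_apply] at hg'
      exact ⟨a, mem_coe.2 (mem_sdiff.2 ⟨hg', fun h0 => ha (mem_coe.2 h0)⟩), rfl⟩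
    · rintro ⟨a, ha, rfl⟩
      exact ⟨a, fun h0 => (mem_sdiff.1 (mem_coe.1 ha)).2 (mem_coe.1 h0), rfl⟩

end Pool.Agent.N583.EW
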